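import Pool.Agent.Helper18.PB2.Goals

/-!
# MP_b9cb57_an, round 2, packet PHI: a measurable injective function with values in a compact null set
-/

set_option autoImplicit false

open MeasureTheory Measure Set Filter Topology

namespace Pool.Agent.Helper31.PB2

/-- the `j`-th term -/
noncomputable def T (u : ℝ) (j : ℕ) : ℝ :=
  (1 / 4 : ℝ) ^ j * (if TopologicalSpace.denseSeq ℝ j < u then 1 else 0)

/-- the function -/
noncomputable def phiF (u : ℝ) : ℝ := ∑' j, T u j

/-- partial sums -/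
noncomputable def cs (s : Finset ℕ) : ℝ := ∑ j ∈ s, (1 / 4 : ℝ) ^ j

/-- the compact approximations -/
noncomputable def KJ (J : ℕ) : Set ℝ :=
  ⋃ s ∈ (Finset.range J).powerset, Icc (cs s) (cs s + (1 / 4 : ℝ) ^ J * (4 / 3))

lemma T_nonneg (u : ℝ) (j : ℕ) : 0 ≤ T u j := by
  unfold T
  split_ifs <;> positivity

lemma T_le (u : ℝ) (j : ℕ) : T u j ≤ (1 / 4 : ℝ) ^ j := by
  unfold T
  split_ifs
  · simp
  · rw [mul_zero]; positivity

lemma T_summable (u : ℝ) : Summable (T u) :=
  Summable.of_nonneg_of_le (T_nonneg u) (T_le u)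
    (summable_geometric_of_lt_one (by norm_num) (by norm_num))

lemma T_mono {u v : ℝ} (h : u ≤ v) (j : ℕ) : T u j ≤ T v j := by
  unfold T
  apply mul_le_mul_of_nonneg_left _ (by positivity)
  split_ifs with h1 h2
  · exact le_rfl
  · exact absurd (h1.trans_le h) h2
  · exact zero_le_one
  · exact le_rfl

lemma phiF_strictMono : StrictMono phiF := by
  intro u v h
  obtain ⟨j, hz⟩ := (TopologicalSpace.denseRange_denseSeq ℝ).exists_mem_open
    (isOpen_Ioo (a := u) (b := v)) (nonempty_Ioo.mpr h)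
  have h1 : T u j < T v j := by
    unfold T
    rw [if_neg (not_lt.mpr hz.1.le), if_pos hz.2]
    have : (0 : ℝ) < (1 / 4 : ℝ) ^ j := by positivity
    linarith
  exact Summable.tsum_lt_tsum (T_mono h.le) h1 (T_summable u) (T_summable v)

lemma phiF_mem (J : ℕ) (u : ℝ) : phiF u ∈ KJ J := by
  unfold KJ
  rw [mem_iUnion₂]
  refine ⟨(Finset.range J).filter (fun j => TopologicalSpace.denseSeq ℝ j < u),
    Finset.mem_powerset.mpr (Finset.filter_subset _ _), ?_⟩
  have h1 : cs ((Finset.range J).filter (fun j => TopologicalSpace.denseSeq ℝ j < u)) =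
      ∑ j ∈ Finset.range J, T u j := by
    unfold cs T
    rw [Finset.sum_filter]
    apply Finset.sum_congr rfl
    intro j _
    split_ifs <;> simp
  have h2 : phiF u = (∑ j ∈ Finset.range J, T u j) + ∑' j, T u (j + J) :=
    ((T_summable u).sum_add_tsum_nat_add J).symm
  have hs : Summable (fun j => T u (j + J)) := (summable_nat_add_iff J).mpr (T_summable u)
  have hg : Summable (fun j : ℕ => (1 / 4 : ℝ) ^ (j + J)) :=
    (summable_nat_add_iff J).mpr (summable_geometric_of_lt_one (by norm_num) (by norm_num))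
  have h3 : 0 ≤ ∑' j, T u (j + J) := tsum_nonneg fun j => T_nonneg u (j + J)
  have h4 : ∑' j, T u (j + J) ≤ (1 / 4 : ℝ) ^ J * (4 / 3) := by
    calc ∑' j, T u (j + J) ≤ ∑' j : ℕ, (1 / 4 : ℝ) ^ (j + J) :=
          hs.tsum_le_tsum (fun j => T_le u (j + J)) hg
      _ = ∑' j : ℕ, (1 / 4 : ℝ) ^ j * (1 / 4 : ℝ) ^ J := by
          congr 1; funext j; rw [pow_add]
      _ = (∑' j : ℕ, (1 / 4 : ℝ) ^ j) * (1 / 4 : ℝ) ^ J := tsum_mul_right
      _ = (1 / 4 : ℝ) ^ J * (4 / 3) := by
          rw [tsum_geometric_of_lt_one (by norm_num) (by norm_num)]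
          ring
  rw [h1]
  constructor <;> linarith

lemma KJ_compact (J : ℕ) : IsCompact (KJ J) :=
  (Finset.range J).powerset.isCompact_biUnion fun _ _ => isCompact_Icc

lemma KJ_volume (J : ℕ) : volume (KJ J) ≤ ENNReal.ofReal ((1 / 2 : ℝ) ^ J * (4 / 3)) := by
  calc volume (KJ J) ≤ ∑ s ∈ (Finset.range J).powerset,
        volume (Icc (cs s) (cs s + (1 / 4 : ℝ) ^ J * (4 / 3))) := measure_biUnion_finset_le _ _
    _ = ∑ s ∈ (Finset.range J).powerset, ENNReal.ofReal ((1 / 4 : ℝ) ^ J * (4 / 3)) := by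
        apply Finset.sum_congr rfl
        intro s _
        rw [Real.volume_Icc]
        congr 1
        ring
    _ = ENNReal.ofReal ((1 / 2 : ℝ) ^ J * (4 / 3)) := by
        rw [Finset.sum_const, Finset.card_powerset, Finset.card_range, nsmul_eq_mul]
        rw [← ENNReal.ofReal_natCast, ← ENNReal.ofReal_mul (by positivity)]
        congr 1
        push_cast
        rw [← mul_assoc, ← mul_pow]
        norm_num

/-- PHI. -/
theorem phi : Pool.Agent.Helper18.PB2.HPhi := by
  refine ⟨phiF, ⋂ J, KJ J, phiF_strictMono.monotone.measurable, phiF_strictMono.injective, ?_, ?_,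
    fun u => mem_iInter.mpr fun J => phiF_mem J u⟩
  · exact (KJ_compact 0).of_isClosed_subset (isClosed_iInter fun J => (KJ_compact J).isClosed)
      (iInter_subset _ 0)
  · have h1 : ∀ J : ℕ, volume (⋂ J, KJ J) ≤ ENNReal.ofReal ((1 / 2 : ℝ) ^ J * (4 / 3)) :=
      fun J => (measure_mono (iInter_subset _ J)).trans (KJ_volume J)
    have h2 : Tendsto (fun J : ℕ => ENNReal.ofReal ((1 / 2 : ℝ) ^ J * (4 / 3))) atTop (𝓝 0) := by
      have : Tendsto (fun J : ℕ => (1 / 2 : ℝ) ^ J * (4 / 3)) atTop (𝓝 (0 * (4 / 3))) :=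
        (tendsto_pow_atTop_nhds_zero_of_lt_one (by norm_num) (by norm_num)).mul_const _
      rw [zero_mul] at this
      simpa using ENNReal.tendsto_ofReal this
    exact le_antisymm (ge_of_tendsto' h2 h1) bot_le

end Pool.Agent.Helper31.PB2
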